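import Pool.Agent.Helper71.UQ.Goals

/-!
# MP_9b2a83_an, project UQ: packet TYP (transfer of three step networks)
-/

set_option autoImplicit false

namespace Pool.Agent.Helper56.UQ.PkTYP

open Pool.Agent.Helper39.Net Pool.Agent.Helper71.UQ Finset

theorem thm : G_TYP := by
  classical
  intro k T1 B R hN E Θ ρ hρ C low up P Q t D hC hD Z
  choose hL hU H h1 h2 h3 h4 using fun θ : Θ =>
    hN ((Z.filter (fun x => θ ∈ C x)).image (low θ)) ((Z.filter (fun x => θ ∈ C x)).image (up θ))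
  let S1 : Θ → Finset (E × E) := fun θ =>
    (Z.filter (fun x => θ ∈ C x)).biUnion fun x => (hL θ (low θ x)).image fun v => (x, P θ v)
  let S2 : Θ → Finset (E × E) := fun θ =>
    (Z.filter (fun x => θ ∈ C x)).biUnion fun y => (hU θ (up θ y)).image fun w => (y, Q θ w)
  let S3 : Θ → Finset (E × E) := fun θ => (H θ).image fun p => (P θ p.1, Q θ p.2)
  have c1 : ∀ θ, (S1 θ).card ≤ (Z.filter (fun x => θ ∈ C x)).card * T1 := fun θ =>
    card_biUnion_le_card_mul _ _ _ fun x _ => card_image_le.trans (h1 θ _)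
  have c2 : ∀ θ, (S2 θ).card ≤ (Z.filter (fun x => θ ∈ C x)).card * T1 := fun θ =>
    card_biUnion_le_card_mul _ _ _ fun x _ => card_image_le.trans (h2 θ _)
  have c3 : ∀ θ, (S3 θ).card ≤ (Z.filter (fun x => θ ∈ C x)).card * T1 := fun θ => by
    refine card_image_le.trans ((h3 θ).trans ?_)
    rw [Nat.mul_comm]
    exact Nat.mul_le_mul_right _ card_image_le
  refine ⟨(Z.biUnion C).biUnion fun θ => S1 θ ∪ S2 θ ∪ S3 θ, ?_, ?_⟩
  · have d1 : ((Z.biUnion C).biUnion fun θ => S1 θ ∪ S2 θ ∪ S3 θ).card ≤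
        ∑ θ ∈ Z.biUnion C, (Z.filter (fun x => θ ∈ C x)).card * (3 * T1) := by
      refine card_biUnion_le.trans (sum_le_sum fun θ _ => ?_)
      have e1 := card_union_le (S1 θ ∪ S2 θ) (S3 θ)
      have e2 := card_union_le (S1 θ) (S2 θ)
      have e3 := c1 θ
      have e4 := c2 θ
      have e5 := c3 θ
      have e6 : (Z.filter (fun x => θ ∈ C x)).card * (3 * T1) =
        (Z.filter (fun x => θ ∈ C x)).card * T1 + (Z.filter (fun x => θ ∈ C x)).card * T1 +
          (Z.filter (fun x => θ ∈ C x)).card * T1 := by ring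
      omega
    have d2 : ∑ θ ∈ Z.biUnion C, (Z.filter (fun x => θ ∈ C x)).card ≤ Z.card * B := by
      have e1 : ∑ θ ∈ Z.biUnion C, (Z.filter (fun x => θ ∈ C x)).card =
          ∑ x ∈ Z, ((Z.biUnion C).filter (fun θ => θ ∈ C x)).card := by
        simp only [card_filter]
        exact sum_comm
      rw [e1]
      refine (sum_le_card_nsmul _ _ B fun x _ => ?_).trans (by rw [smul_eq_mul])
      refine le_trans (card_le_card fun θ hθ => ?_) (hC x)
      exact (mem_filter.1 hθ).2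
    rw [← sum_mul] at d1
    calc _ ≤ _ := d1
      _ ≤ (Z.card * B) * (3 * T1) := Nat.mul_le_mul_right _ d2
      _ = Z.card * (3 * B * T1) := by ring
  · have key : ∀ x ∈ Z, ∀ y ∈ Z, ∀ θ, θ ∈ C x → θ ∈ C y → R (low θ x) (up θ y) →
        (∀ v w : Fin k → ℤ, (∀ i, low θ x i ≤ v i ∧ v i ≤ w i ∧ w i ≤ up θ y i) →
          ρ x (P θ v) + ρ (P θ v) (Q θ w) + ρ (Q θ w) y ≤ ρ x y + t) →
        Reach ρ (((Z.biUnion C).biUnion fun θ => S1 θ ∪ S2 θ ∪ S3 θ : Finset (E × E)) :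
          Set (E × E)) x y (ρ x y + t) := by
      intro x hx y hy θ hxθ hyθ hR hv
      have hθ : θ ∈ Z.biUnion C := mem_biUnion.2 ⟨x, hx, hxθ⟩
      obtain ⟨v, hvL, w, hwU, hH, hi⟩ := h4 θ (low θ x)
        (mem_image_of_mem _ (mem_filter.2 ⟨hx, hxθ⟩)) (up θ y)
        (mem_image_of_mem _ (mem_filter.2 ⟨hy, hyθ⟩)) hR
      have m1 : (x, P θ v) ∈ (((Z.biUnion C).biUnion fun θ => S1 θ ∪ S2 θ ∪ S3 θ :
          Finset (E × E)) : Set (E × E)) :=
        mem_coe.2 (mem_biUnion.2 ⟨θ, hθ, mem_union_left _ (mem_union_left _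
          (mem_biUnion.2 ⟨x, mem_filter.2 ⟨hx, hxθ⟩, mem_image_of_mem _ hvL⟩))⟩)
      have m2 : (y, Q θ w) ∈ (((Z.biUnion C).biUnion fun θ => S1 θ ∪ S2 θ ∪ S3 θ :
          Finset (E × E)) : Set (E × E)) :=
        mem_coe.2 (mem_biUnion.2 ⟨θ, hθ, mem_union_left _ (mem_union_right _
          (mem_biUnion.2 ⟨y, mem_filter.2 ⟨hy, hyθ⟩, mem_image_of_mem _ hwU⟩))⟩)
      have m3 : (P θ v, Q θ w) ∈ (((Z.biUnion C).biUnion fun θ => S1 θ ∪ S2 θ ∪ S3 θ :
          Finset (E × E)) : Set (E × E)) :=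
        mem_coe.2 (mem_biUnion.2 ⟨θ, hθ, mem_union_right _
          (mem_image_of_mem (fun p : (Fin k → ℤ) × (Fin k → ℤ) => (P θ p.1, Q θ p.2)) hH)⟩)
      exact (((Reach.edge (Or.inl m1)).trans (Reach.edge (Or.inl m3))).trans
        (Reach.edge (Or.inr m2))).mono (hv v w hi)
    intro x hx y hy hxy
    obtain ⟨θ, hxθ, hyθ, h | h⟩ := hD x y hxy
    · exact key x hx y hy θ hxθ hyθ h.1 h.2
    · rw [hρ x y]
      exact (key y hy x hx θ hyθ hxθ h.1 h.2).symm hρ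

end Pool.Agent.Helper56.UQ.PkTYP
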